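import Pool.Agent.H67LR.Tree

set_option autoImplicit false

namespace Pool.Agent.Results.MP_a112e0_al.TreeActions

/-- Let `G` act by automorphisms on a tree so that some finite-index subgroup `F` acts freely, i.e.
no nontrivial element of `F` fixes a vertex or inverts an edge.  Then `G` has property (LR): every
finitely generated subgroup of `G` is a retract of a finite-index subgroup of `G` containing it. -/
theorem result (G V : Type) [Group G] [MulAction G V] (Γ : SimpleGraph V) (hΓ : Γ.IsTree)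
    (hadj : ∀ (g : G) (u v : V), Γ.Adj u v → Γ.Adj (g • u) (g • v))
    (F : Subgroup G) (hF : F.FiniteIndex)
    (hfree : ∀ f ∈ F, ∀ v : V, f • v = v → f = 1)
    (hinv : ∀ f ∈ F, ∀ u v : V, Γ.Adj u v → ¬ (f • u = v ∧ f • v = u))
    (H : Subgroup G) (hH : H.FG) :
    ∃ K : Subgroup G, K.FiniteIndex ∧ H ≤ K ∧
      ∃ ρ : K →* G, (∀ k : K, ρ k ∈ H) ∧ ∀ h : G, ∀ hk : h ∈ K, h ∈ H → ρ ⟨h, hk⟩ = h :=
  Pool.Agent.H67LR.tree_LR Γ hΓ hadj F hfree hinv H hH

end Pool.Agent.Results.MP_a112e0_al.TreeActions
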